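import Pool.Agent.Y902.GN.Stm

/-! Project GN: task `S_alg`. -/

set_option autoImplicit false

namespace Pool.Agent.Y394.GN

open Polynomial

section pieceA
variable {S F L : Type} [CommRing S] [IsDomain S] [Field F] [Algebra S F] [IsFractionRing S F]
  [Field L] [Algebra F L] [Algebra S L] [IsScalarTower S F L]

theorem clear_den (q : F[X]) : ∃ (b : S) (Q : S[X]), b ≠ 0 ∧
    Q.map (algebraMap S F) = C (algebraMap S F b) * q := by
  obtain ⟨b, hb, h⟩ := IsLocalization.integerNormalization_spec (nonZeroDivisors S) q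
  refine ⟨b, IsLocalization.integerNormalization (nonZeroDivisors S) q,
    nonZeroDivisors.ne_zero hb, ?_⟩
  rw [h, Algebra.smul_def]
  rfl

theorem pieceA [CharZero F] {θ : L} (hθ : IsIntegral F θ) (htop : ∀ z : L, ∃ q : F[X], aeval θ q = z) :
    ∃ H : S[X], aeval θ H = 0 ∧ aeval θ (derivative H) ≠ 0 ∧
      (∀ P : S[X], aeval θ P = 0 → ∃ (c : S) (Q : S[X]), c ≠ 0 ∧ C c * P = H * Q) ∧
      (∀ z : L, ∃ (b : S) (B : S[X]), b ≠ 0 ∧ algebraMap S L b * z = aeval θ B) := by
  have hinjF : Function.Injective (algebraMap S F) := IsFractionRing.injective S F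
  have hinjL : Function.Injective (algebraMap S L) := by
    rw [IsScalarTower.algebraMap_eq S F L]
    exact (algebraMap F L).injective.comp hinjF
  have hmap : ∀ P : S[X], aeval θ P = aeval θ (P.map (algebraMap S F)) := fun P => by
    rw [aeval_map_algebraMap]
  have hinjX : Function.Injective (Polynomial.map (algebraMap S F)) :=
    Polynomial.map_injective _ hinjF
  obtain ⟨h₀, H, hh₀, hH⟩ := clear_den (S := S) (minpoly F θ)
  have hsep : (minpoly F θ).Separable := (minpoly.irreducible hθ).separable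
  refine ⟨H, ?_, ?_, ?_, ?_⟩
  · rw [hmap, hH, map_mul, minpoly.aeval, mul_zero]
  · rw [hmap, ← derivative_map, hH, derivative_C_mul, map_mul, aeval_C,
      ← IsScalarTower.algebraMap_apply S F L]
    refine mul_ne_zero ?_ (hsep.aeval_derivative_ne_zero (minpoly.aeval F θ))
    rwa [Ne, map_eq_zero_iff _ hinjL]
  · intro P hP
    rw [hmap] at hP
    obtain ⟨q, hq⟩ := minpoly.dvd F θ hP
    obtain ⟨b, Q, hb, hQ⟩ := clear_den (S := S) q
    refine ⟨b * h₀, Q, mul_ne_zero hb hh₀, ?_⟩
    apply hinjX
    rw [Polynomial.map_mul, Polynomial.map_mul, map_C, hq, hH, hQ, map_mul, C_mul]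
    ring
  · intro z
    obtain ⟨q, hq⟩ := htop z
    obtain ⟨b, B, hb, hB⟩ := clear_den (S := S) q
    refine ⟨b, B, hb, ?_⟩
    rw [hmap, hB, map_mul, aeval_C, hq, ← IsScalarTower.algebraMap_apply S F L]

end pieceA

section pieceB
variable {O F L : Type} [CommRing O] [IsDomain O] [Field F] {d n : ℕ}
  [Algebra (MvPolynomial (Fin d) O) F] [IsFractionRing (MvPolynomial (Fin d) O) F]
  [Field L] [Algebra F L] [Algebra (MvPolynomial (Fin d) O) L]
  [IsScalarTower (MvPolynomial (Fin d) O) F L]

theorem pieceB [CharZero F] (φ : MvPolynomial (Fin n) O →+* L) (ι : Fin d → Fin n)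
    (hφ : ∀ P : MvPolynomial (Fin d) O,
      φ (MvPolynomial.rename ι P) = algebraMap (MvPolynomial (Fin d) O) L P)
    (hfrac : ∀ z : L, ∃ a b, z = φ a / φ b)
    (hint : ∀ i, IsIntegral F (φ (MvPolynomial.X i))) :
    ∃ A : MvPolynomial (Fin n) O, IsIntegral F (φ A) ∧ ∀ z : L, ∃ q : F[X], aeval (φ A) q = z := by
  classical
  set G : Set L := Set.range fun i => φ (MvPolynomial.X i) with hG
  have hGint : ∀ x ∈ G, IsIntegral F x := by
    rintro _ ⟨i, rfl⟩
    exact hint i
  have hmem : ∀ P, φ P ∈ IntermediateField.adjoin F G := by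
    intro P
    induction P using MvPolynomial.induction_on with
    | C c =>
      have h1 := hφ (MvPolynomial.C c)
      rw [MvPolynomial.rename_C] at h1
      rw [h1, IsScalarTower.algebraMap_apply _ F L]
      exact IntermediateField.algebraMap_mem _ _
    | add P Q hP hQ =>
      rw [map_add]
      exact add_mem hP hQ
    | mul_X P i hP =>
      rw [map_mul]
      exact mul_mem hP (IntermediateField.subset_adjoin F G ⟨i, rfl⟩)
  have htop : IntermediateField.adjoin F G = ⊤ := by
    rw [eq_top_iff]
    intro z _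
    obtain ⟨a, b, rfl⟩ := hfrac z
    exact div_mem (hmem a) (hmem b)
  have hadj : Algebra.adjoin F G = ⊤ := by
    rw [← IntermediateField.adjoin_toSubalgebra_of_isAlgebraic fun x hx => (hGint x hx).isAlgebraic,
      htop]
    rfl
  have hfd : FiniteDimensional F L := by
    have h1 : FiniteDimensional F (IntermediateField.adjoin F G) :=
      IntermediateField.finiteDimensional_adjoin hGint
    rw [htop] at h1
    exact LinearEquiv.finiteDimensional IntermediateField.topEquiv.toLinearEquiv
  obtain ⟨θ₀, hθ₀⟩ := Field.exists_primitive_element F L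
  have hrep : ∀ z : L, ∃ (p : MvPolynomial (Fin d) O) (P : MvPolynomial (Fin n) O), p ≠ 0 ∧
      algebraMap _ L p * z = φ P := by
    intro z
    have hz : z ∈ Algebra.adjoin F G := by rw [hadj]; trivial
    induction hz using Algebra.adjoin_induction with
    | mem x hx =>
      obtain ⟨i, rfl⟩ := hx
      exact ⟨1, MvPolynomial.X i, one_ne_zero, by rw [map_one, one_mul]⟩
    | algebraMap r =>
      obtain ⟨a, b, hb, rfl⟩ := IsFractionRing.div_surjective (A := MvPolynomial (Fin d) O) r
      refine ⟨b, MvPolynomial.rename ι a, nonZeroDivisors.ne_zero hb, ?_⟩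
      rw [hφ, IsScalarTower.algebraMap_apply _ F L b, IsScalarTower.algebraMap_apply _ F L a,
        ← map_mul, mul_div_cancel₀]
      rw [Ne, map_eq_zero_iff _ (IsFractionRing.injective (MvPolynomial (Fin d) O) F)]
      exact nonZeroDivisors.ne_zero hb
    | add x y _ _ hx hy =>
      obtain ⟨p, P, hp, h1⟩ := hx
      obtain ⟨q, Q, hq, h2⟩ := hy
      refine ⟨p * q, MvPolynomial.rename ι q * P + MvPolynomial.rename ι p * Q,
        mul_ne_zero hp hq, ?_⟩
      rw [map_add, map_mul, map_mul, map_mul, hφ, hφ, ← h1, ← h2]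
      ring
    | mul x y _ _ hx hy =>
      obtain ⟨p, P, hp, h1⟩ := hx
      obtain ⟨q, Q, hq, h2⟩ := hy
      refine ⟨p * q, P * Q, mul_ne_zero hp hq, ?_⟩
      rw [map_mul, map_mul, ← h1, ← h2]
      ring
  obtain ⟨p, A, hp, hA⟩ := hrep θ₀
  have hθi : IsIntegral F θ₀ := IsIntegral.of_finite F θ₀
  refine ⟨A, IsIntegral.of_finite F _, fun z => ?_⟩
  have hz : z ∈ Algebra.adjoin F {θ₀} := by
    rw [← IntermediateField.adjoin_simple_toSubalgebra_of_isAlgebraic hθi.isAlgebraic, hθ₀]
    trivial
  rw [Algebra.adjoin_singleton_eq_range_aeval] at hz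
  obtain ⟨q, hq⟩ := hz
  have hpF : algebraMap (MvPolynomial (Fin d) O) F p ≠ 0 := by
    rwa [Ne, map_eq_zero_iff _ (IsFractionRing.injective (MvPolynomial (Fin d) O) F)]
  refine ⟨q.comp (C (algebraMap (MvPolynomial (Fin d) O) F p)⁻¹ * X), ?_⟩
  rw [aeval_comp, map_mul, aeval_C, aeval_X, ← hA, IsScalarTower.algebraMap_apply _ F L p,
    ← mul_assoc, ← map_mul, inv_mul_cancel₀ hpF, map_one, one_mul]
  exact hq

end pieceB

section basis
variable {O A : Type} [CommRing O] [IsDomain O] [CommRing A] [IsDomain A] [Algebra O A]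
  [FaithfulSMul O A] {n : ℕ}

theorem exists_basis (x : Fin n → A) (hx : Algebra.adjoin O (Set.range x) = ⊤) :
    ∃ (d : ℕ) (ι : Fin d → Fin n), AlgebraicIndependent O (fun b => x (ι b)) ∧
      ∀ z : A, IsAlgebraic (Algebra.adjoin O (Set.range fun b => x (ι b))) z := by
  classical
  have : Algebra.IsAlgebraic (Algebra.adjoin O (Set.range x)) A := by
    refine ⟨fun z => ?_⟩
    have hz : z ∈ Algebra.adjoin O (Set.range x) := by rw [hx]; trivial
    exact isAlgebraic_algebraMap (⟨z, hz⟩ : Algebra.adjoin O (Set.range x))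
  obtain ⟨t, ht, hb⟩ := exists_isTranscendenceBasis_subset (R := O) (Set.range x)
  have hfin : t.Finite := (Set.finite_range x).subset ht
  have := hfin.fintype
  let e : Fin (Fintype.card t) ≃ t := (Fintype.equivFin t).symm
  have hch : ∀ b : Fin (Fintype.card t), ∃ i, x i = (e b : A) := fun b => ht (e b).2
  choose ι hι using hch
  have hfun : (fun b => x (ι b)) = (fun a : t => (a : A)) ∘ e := by
    funext b
    exact hι b
  refine ⟨Fintype.card t, ι, ?_, ?_⟩
  · rw [hfun]
    exact hb.1.comp e e.injective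
  · have h1 := hb.isAlgebraic
    have hr : Set.range (fun b => x (ι b)) = Set.range (fun a : t => (a : A)) := by
      rw [hfun, e.surjective.range_comp]
    rw [hr]
    exact fun z => h1.isAlgebraic z

end basis

section assemble
variable {O : Type} [CommRing O] {d n : ℕ}

theorem left_C (c : O) : MvPolynomial.optionEquivLeft O (Fin d) (MvPolynomial.C c) =
    C (MvPolynomial.C c) := by
  have := (MvPolynomial.optionEquivLeft O (Fin d)).commutes c
  exact this

theorem left_pderiv (P : MvPolynomial (Option (Fin d)) O) :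
    MvPolynomial.optionEquivLeft O (Fin d) (MvPolynomial.pderiv none P) =
      derivative (MvPolynomial.optionEquivLeft O (Fin d) P) := by
  induction P using MvPolynomial.induction_on with
  | C c => rw [MvPolynomial.pderiv_C, map_zero, left_C, derivative_C]
  | add P Q hP hQ => rw [map_add, map_add, map_add, hP, hQ, derivative_add]
  | mul_X P o hP =>
    rw [Derivation.leibniz, map_add, map_mul, derivative_mul, smul_eq_mul, smul_eq_mul, map_mul,
      map_mul, hP]
    rcases o with _ | b
    · rw [MvPolynomial.pderiv_X_self, map_one, MvPolynomial.optionEquivLeft_X_none, derivative_X]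
      ring
    · rw [MvPolynomial.pderiv_X_of_ne (by simp), map_zero, MvPolynomial.optionEquivLeft_X_some,
        derivative_C]
      ring

theorem left_rename (c : MvPolynomial (Fin d) O) :
    MvPolynomial.optionEquivLeft O (Fin d) (MvPolynomial.rename some c) = C c := by
  induction c using MvPolynomial.induction_on with
  | C c => rw [MvPolynomial.rename_C, left_C]
  | add P Q hP hQ => rw [map_add, map_add, hP, hQ, C_add]
  | mul_X P o hP =>
    rw [map_mul, map_mul, hP, MvPolynomial.rename_X, MvPolynomial.optionEquivLeft_X_some, C_mul]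

open Pool.Agent.Y902.GN in
theorem assemble [IsDomain O] [CharZero O] {R₀ L F : Type} [CommRing R₀] [IsDomain R₀]
    [Algebra O R₀] [Field L] [Algebra R₀ L] [IsFractionRing R₀ L]
    (mk : MvPolynomial (Fin n) O →ₐ[O] R₀) (hmk : Function.Surjective mk) (ι : Fin d → Fin n)
    (hι : AlgebraicIndependent O (fun b => mk (MvPolynomial.X (ι b))))
    (halg : ∀ z : R₀, IsAlgebraic (Algebra.adjoin O
      (Set.range fun b => mk (MvPolynomial.X (ι b)))) z)
    [Field F] [Algebra (MvPolynomial (Fin d) O) F] [IsFractionRing (MvPolynomial (Fin d) O) F]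
    [Algebra F L] [Algebra (MvPolynomial (Fin d) O) L] [IsScalarTower (MvPolynomial (Fin d) O) F L]
    (hy : ∀ P : MvPolynomial (Fin d) O,
      algebraMap (MvPolynomial (Fin d) O) L P = algebraMap R₀ L (mk (MvPolynomial.rename ι P))) :
    ∃ (A : MvPolynomial (Fin n) O)
      (H : MvPolynomial (Option (Fin d)) O) (B₀ : MvPolynomial (Fin d) O)
      (B : Fin n → MvPolynomial (Option (Fin d)) O),
      mk (sb ι A H) = 0 ∧ mk (sb ι A (MvPolynomial.pderiv none H)) ≠ 0 ∧
      (∀ P, mk (sb ι A P) = 0 → ∃ (c : MvPolynomial (Fin d) O)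
        (Q : MvPolynomial (Option (Fin d)) O), c ≠ 0 ∧ MvPolynomial.rename some c * P = H * Q) ∧
      B₀ ≠ 0 ∧ ∀ i, mk (MvPolynomial.rename ι B₀ * MvPolynomial.X i - sb ι A (B i)) = 0 := by
  classical
  have hinjF : Function.Injective (algebraMap (MvPolynomial (Fin d) O) F) :=
    IsFractionRing.injective _ F
  have hinj : Function.Injective (algebraMap R₀ L) := IsFractionRing.injective R₀ L
  have hCF : CharZero F := charZero_of_injective_algebraMap hinjF
  set φ : MvPolynomial (Fin n) O →+* L := (algebraMap R₀ L).comp (mk : _ →+* R₀) with hφdef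
  have hφ0 : ∀ P, mk P = 0 ↔ φ P = 0 := by
    intro P
    rw [hφdef, RingHom.comp_apply, map_eq_zero_iff _ hinj]
    rfl
  have hφ : ∀ P : MvPolynomial (Fin d) O,
      φ (MvPolynomial.rename ι P) = algebraMap (MvPolynomial (Fin d) O) L P := fun P => (hy P).symm
  have hfrac : ∀ z : L, ∃ a b, z = φ a / φ b := by
    intro z
    obtain ⟨a, b, _, rfl⟩ := IsFractionRing.div_surjective (A := R₀) z
    obtain ⟨a', rfl⟩ := hmk a
    obtain ⟨b', rfl⟩ := hmk b
    exact ⟨a', b', rfl⟩
  have hint : ∀ i, IsIntegral F (φ (MvPolynomial.X i)) := by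
    intro i
    obtain ⟨p, hp, hp0⟩ := halg (mk (MvPolynomial.X i))
    let e := hι.aevalEquiv
    have he : ∀ a, algebraMap (MvPolynomial (Fin d) O) L (e.symm a) =
        algebraMap R₀ L (a : R₀) := by
      intro a
      obtain ⟨P, rfl⟩ := e.surjective a
      rw [AlgEquiv.symm_apply_apply, hy]
      congr 1
      have h1 : algebraMap _ R₀ (hι.aevalEquiv P) =
        MvPolynomial.aeval (fun b => mk (MvPolynomial.X (ι b))) P := hι.algebraMap_aevalEquiv P
      have h2 : mk.comp (MvPolynomial.rename ι) =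
          MvPolynomial.aeval (fun b => mk (MvPolynomial.X (ι b))) := by
        apply MvPolynomial.algHom_ext
        intro b
        rw [AlgHom.comp_apply, MvPolynomial.rename_X, MvPolynomial.aeval_X]
      have h3 : mk (MvPolynomial.rename ι P) =
          MvPolynomial.aeval (fun b => mk (MvPolynomial.X (ι b))) P := AlgHom.congr_fun h2 P
      exact h3.trans h1.symm
    have hcomp : (algebraMap (MvPolynomial (Fin d) O) L).comp e.symm.toAlgHom.toRingHom =
        (algebraMap R₀ L).comp (algebraMap _ R₀) := RingHom.ext fun a => he a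
    have h4 : IsAlgebraic (MvPolynomial (Fin d) O) (φ (MvPolynomial.X i)) := by
      refine ⟨p.map e.symm.toAlgHom.toRingHom, ?_, ?_⟩
      · rwa [Ne, Polynomial.map_eq_zero_iff]
        exact e.symm.injective
      · rw [aeval_def, eval₂_map, hcomp]
        change eval₂ _ (algebraMap R₀ L (mk (MvPolynomial.X i))) p = 0
        rw [← Polynomial.hom_eval₂]
        rw [aeval_def] at hp0
        rw [hp0, map_zero]
    exact ((IsFractionRing.isAlgebraic_iff (MvPolynomial (Fin d) O) F L).1 h4).isIntegral
  obtain ⟨A, hA, htop⟩ := pieceB φ ι hφ hfrac hint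
  obtain ⟨H', hH1, hH2, hH3, hH4⟩ := pieceA (S := MvPolynomial (Fin d) O) hA htop
  let E := MvPolynomial.optionEquivLeft O (Fin d)
  have hE : ∀ P : MvPolynomial (Option (Fin d)) O, φ (sb ι A P) = aeval (φ A) (E P) := by
    intro P
    induction P using MvPolynomial.induction_on with
    | C c =>
      have h1 : sb ι A (MvPolynomial.C c) = MvPolynomial.C c := (sb ι A).commutes c
      have h2 := hφ (MvPolynomial.C c)
      rw [MvPolynomial.rename_C] at h2
      rw [h1, h2]
      change _ = aeval (φ A) (MvPolynomial.optionEquivLeft O (Fin d) (MvPolynomial.C c))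
      rw [left_C, aeval_C]
    | add P Q hP hQ => rw [map_add, map_add, map_add, map_add, hP, hQ]
    | mul_X P o hP =>
      rw [map_mul, map_mul, map_mul, map_mul, hP]
      congr 1
      rcases o with _ | b
      · change _ = aeval (φ A) (MvPolynomial.optionEquivLeft O (Fin d) (MvPolynomial.X none))
        rw [MvPolynomial.optionEquivLeft_X_none, aeval_X]
        congr 1
        simp [sb]
      · change _ = aeval (φ A) (MvPolynomial.optionEquivLeft O (Fin d) (MvPolynomial.X (some b)))
        rw [MvPolynomial.optionEquivLeft_X_some, aeval_C, ← hφ, MvPolynomial.rename_X]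
        congr 1
        simp [sb]
  choose b B hb hB using hH4
  refine ⟨A, E.symm H', ∏ i, b (φ (MvPolynomial.X i)),
    fun i => E.symm (C (∏ j ∈ Finset.univ.erase i, b (φ (MvPolynomial.X j))) *
      B (φ (MvPolynomial.X i))), ?_, ?_, ?_, ?_, ?_⟩
  · rw [hφ0, hE, AlgEquiv.apply_symm_apply, hH1]
  · rw [Ne, hφ0, hE]
    have h1 : E (MvPolynomial.pderiv none (E.symm H')) = derivative H' := by
      rw [show E (MvPolynomial.pderiv none (E.symm H')) = derivative (E (E.symm H')) from
        left_pderiv _, AlgEquiv.apply_symm_apply]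
    rw [h1]
    exact hH2
  · intro P hP
    rw [hφ0, hE] at hP
    obtain ⟨c, Q, hc, hQ⟩ := hH3 _ hP
    refine ⟨c, E.symm Q, hc, ?_⟩
    apply E.injective
    rw [map_mul, map_mul, AlgEquiv.apply_symm_apply, AlgEquiv.apply_symm_apply, ← hQ]
    congr 1
    exact left_rename c
  · exact Finset.prod_ne_zero_iff.2 fun i _ => hb _
  · intro i
    rw [hφ0, map_sub, map_mul, hφ, hE, AlgEquiv.apply_symm_apply, map_mul, aeval_C, ← hB,
      ← mul_assoc, ← map_mul, Finset.prod_erase_mul _ _ (Finset.mem_univ i), sub_self]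

end assemble

theorem t : Pool.Agent.Y902.GN.S_alg := by
  classical
  intro O _ _ _ n J hJ hC
  have hdom : IsDomain (MvPolynomial (Fin n) O ⧸ J) := Ideal.Quotient.isDomain J
  let mk : MvPolynomial (Fin n) O →ₐ[O] MvPolynomial (Fin n) O ⧸ J := Ideal.Quotient.mkₐ O J
  have hmk : Function.Surjective mk := Ideal.Quotient.mkₐ_surjective O J
  have hJ0 : ∀ P, P ∈ J ↔ mk P = 0 := fun P => Ideal.Quotient.eq_zero_iff_mem.symm
  have hff : @FaithfulSMul O (MvPolynomial (Fin n) O ⧸ J) Algebra.toSMul := by
    rw [faithfulSMul_iff_algebraMap_injective, injective_iff_map_eq_zero]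
    intro c hc
    by_contra hc0
    apply hC c hc0
    rw [hJ0, ← hc]
    exact mk.commutes c
  obtain ⟨d, ι, hι, halg⟩ := exists_basis (O := O) (fun i => mk (MvPolynomial.X i)) (by
    rw [eq_top_iff]
    intro z _
    obtain ⟨P, rfl⟩ := hmk z
    have h1 : (MvPolynomial.aeval fun i => mk (MvPolynomial.X i)) = mk := by
      apply MvPolynomial.algHom_ext
      intro i
      rw [MvPolynomial.aeval_X]
    rw [Algebra.adjoin_range_eq_range_aeval, h1]
    exact ⟨P, rfl⟩)
  obtain ⟨L, _, _, hL⟩ : ∃ (L : Type) (_ : Field L) (_ : Algebra (MvPolynomial (Fin n) O ⧸ J) L),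
      IsFractionRing (MvPolynomial (Fin n) O ⧸ J) L :=
    ⟨FractionRing (MvPolynomial (Fin n) O ⧸ J), inferInstance, inferInstance, inferInstance⟩
  obtain ⟨F, _, _, hF⟩ : ∃ (F : Type) (_ : Field F) (_ : Algebra (MvPolynomial (Fin d) O) F),
      IsFractionRing (MvPolynomial (Fin d) O) F :=
    ⟨FractionRing (MvPolynomial (Fin d) O), inferInstance, inferInstance, inferInstance⟩
  let y : MvPolynomial (Fin d) O →+* L :=
    (algebraMap _ L).comp (mk.toRingHom.comp
      (MvPolynomial.rename ι : _ →ₐ[O] MvPolynomial (Fin n) O).toRingHom)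
  have hren : ∀ P : MvPolynomial (Fin d) O, mk (MvPolynomial.rename ι P) = 0 → P = 0 := by
    intro P hP
    have h2 : mk.comp (MvPolynomial.rename ι) =
        MvPolynomial.aeval (fun b => mk (MvPolynomial.X (ι b))) := by
      apply MvPolynomial.algHom_ext
      intro b
      rw [AlgHom.comp_apply, MvPolynomial.rename_X, MvPolynomial.aeval_X]
    have h3 : mk (MvPolynomial.rename ι P) =
        MvPolynomial.aeval (fun b => mk (MvPolynomial.X (ι b))) P := AlgHom.congr_fun h2 P
    rw [h3] at hP
    exact (injective_iff_map_eq_zero _).1 hι P hP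
  have hyinj : Function.Injective y := by
    rw [injective_iff_map_eq_zero]
    intro P hP
    apply hren
    exact (map_eq_zero_iff _ (IsFractionRing.injective (MvPolynomial (Fin n) O ⧸ J) L)).1 hP
  let algSL : Algebra (MvPolynomial (Fin d) O) L := y.toAlgebra
  let algFL : Algebra F L := (IsFractionRing.lift (A := MvPolynomial (Fin d) O) (K := F) hyinj).toAlgebra
  have hst : IsScalarTower (MvPolynomial (Fin d) O) F L := by
    refine IsScalarTower.of_algebraMap_eq fun P => ?_
    change y P = IsFractionRing.lift hyinj (algebraMap _ F P)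
    rw [IsFractionRing.lift_algebraMap]
  obtain ⟨A, H, B₀, B, h1, h2, h3, h4, h5⟩ := assemble (F := F) (L := L) mk hmk ι hι halg
    (fun P => rfl)
  refine ⟨d, ι, A, H, B₀, B, fun P hP => hren P ((hJ0 _).1 hP), (hJ0 _).2 h1,
    fun h => h2 ((hJ0 _).1 h), fun P hP => h3 P ((hJ0 _).1 hP), h4, fun i => (hJ0 _).2 (h5 i)⟩

end Pool.Agent.Y394.GN
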